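import Mathlib
import Pool.Agent.W623.SecE.Stm

/-! Factorisation of rational polynomials into integral admissible factors. -/

namespace Pool.Agent.W262.S3

open Finset Polynomial Pool.Agent.W262.TW Pool.Agent.W623.SecE

lemma exists_int (g : ℚ[X]) (hg : g ≠ 0) : ∃ (F : ℤ[X]) (c : ℚ), c ≠ 0 ∧
    F.map (Int.castRingHom ℚ) = C c * g := by
  obtain ⟨c, hc, hcf⟩ := IsLocalization.integerNormalization_spec (nonZeroDivisors ℤ) g
  refine ⟨IsLocalization.integerNormalization (nonZeroDivisors ℤ) g, (c : ℚ), ?_, ?_⟩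
  · exact_mod_cast nonZeroDivisors.ne_zero hc
  · have h1 : (algebraMap ℤ ℚ) = Int.castRingHom ℚ := rfl
    rw [← h1, hcf]
    ext i
    rw [coeff_smul, coeff_C_mul, zsmul_eq_mul]

theorem exists_factors (f : ℚ[X]) (hf : Squarefree f) (h4 : 4 ≤ f.natDegree)
    (hev : ∀ g : ℚ[X], Irreducible g → g ∣ f → Even g.natDegree) :
    ∃ (K : Type) (_ : Fintype K) (_ : DecidableEq K) (F : K → ℤ[X]) (b : ℚ), b ≠ 0 ∧ AdmE F ∧
      4 ≤ ∑ k, (F k).natDegree ∧ C (b ^ 2) * f = ∏ k, (F k).map (Int.castRingHom ℚ) := by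
  classical
  have hf0 : f ≠ 0 := hf.ne_zero
  set s : Multiset ℚ[X] := UniqueFactorizationMonoid.normalizedFactors f with hs
  have hnd : s.Nodup := (UniqueFactorizationMonoid.squarefree_iff_nodup_normalizedFactors hf0).1 hf
  obtain ⟨u, hu⟩ : Associated s.prod f :=
    UniqueFactorizationMonoid.prod_normalizedFactors hf0
  let K := {g // g ∈ s.toFinset}
  have hirr : ∀ k : K, Irreducible (k : ℚ[X]) := fun k =>
    UniqueFactorizationMonoid.irreducible_of_normalized_factor _ (Multiset.mem_toFinset.1 k.2)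
  have hdvd : ∀ k : K, (k : ℚ[X]) ∣ f := fun k =>
    UniqueFactorizationMonoid.dvd_of_mem_normalizedFactors (Multiset.mem_toFinset.1 k.2)
  have hprod : ∏ k : K, (k : ℚ[X]) = s.prod := by
    rw [Finset.prod_coe_sort s.toFinset (fun g => g), Finset.prod, Multiset.toFinset_val,
      Multiset.dedup_eq_self.2 hnd, Multiset.map_id']
  obtain ⟨a, ha0, ha⟩ : ∃ a : ℚ, a ≠ 0 ∧ (u : ℚ[X]) = C a := by
    obtain ⟨a, ha, h⟩ := isUnit_iff.1 u.isUnit
    exact ⟨a, ha.ne_zero, h.symm⟩
  choose F c hc hF using fun k : K => exists_int (k : ℚ[X]) (hirr k).ne_zero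
  have hK : Nonempty K := by
    by_contra hne
    rw [not_nonempty_iff] at hne
    have h1 : ∏ k : K, (k : ℚ[X]) = 1 := Fintype.prod_empty _
    rw [hprod] at h1
    rw [h1, ha, one_mul] at hu
    rw [← hu, natDegree_C] at h4
    omega
  obtain ⟨k0⟩ := hK
  -- the constant
  set e : ℚ := a * ∏ k, c k with he
  have he0 : e ≠ 0 := mul_ne_zero ha0 (prod_ne_zero_iff.2 fun k _ => hc k)
  set q : ℚ := a / ∏ k, c k with hq
  have hcp : (∏ k, c k) ≠ 0 := prod_ne_zero_iff.2 fun k _ => hc k
  have hq0 : q ≠ 0 := div_ne_zero ha0 hcp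
  have hfF : f = C q * ∏ k, (F k).map (Int.castRingHom ℚ) := by
    rw [prod_congr rfl fun k _ => hF k, prod_mul_distrib, hprod, ← hu, ha]
    have h1 : ∏ k, (C (c k) : ℚ[X]) = C (∏ k, c k) := (map_prod C _ _).symm
    rw [h1, ← mul_assoc, ← C_mul, hq, div_mul_cancel₀ _ hcp]
    ring
  have hden : (q.den : ℚ) ≠ 0 := by exact_mod_cast q.den_ne_zero
  set m : ℤ := q.num * q.den with hm
  have hm0 : (m : ℚ) ≠ 0 := by
    rw [hm]
    push_cast
    exact mul_ne_zero (by exact_mod_cast Rat.num_ne_zero.2 hq0) hden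
  have hmq : (m : ℚ) = q.den ^ 2 * q := by
    rw [hm]
    push_cast
    nth_rewrite 4 [← Rat.num_div_den q]
    field_simp
  let G : K → ℤ[X] := fun k => if k = k0 then C m * F k else F k
  have hGmap : ∀ k, ∃ r : ℚ, r ≠ 0 ∧ (G k).map (Int.castRingHom ℚ) = C r * (k : ℚ[X]) := by
    intro k
    by_cases h : k = k0
    · refine ⟨m * c k, mul_ne_zero hm0 (hc k), ?_⟩
      simp only [G, h, if_true, Polynomial.map_mul, map_C, hF, C_mul]
      rw [← h, mul_assoc]
      simp
    · refine ⟨c k, hc k, ?_⟩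
      simp only [G, h, if_false, hF]
  choose r hr0 hr using hGmap
  have hassG : ∀ k, Associated ((G k).map (Int.castRingHom ℚ)) (k : ℚ[X]) := by
    intro k
    rw [hr]
    exact associated_unit_mul_left _ _ (isUnit_C.2 (hr0 k).isUnit)
  have hdegG : ∀ k, (G k).natDegree = (k : ℚ[X]).natDegree := by
    intro k
    rw [← natDegree_map_eq_of_injective (RingHom.injective_int (Int.castRingHom ℚ)) (G k), hr,
      natDegree_C_mul (hr0 k)]
  have hprodG : ∏ k, (G k).map (Int.castRingHom ℚ) = C ((q.den : ℚ) ^ 2) * f := by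
    have h1 : ∏ k, (G k).map (Int.castRingHom ℚ) =
        C (m : ℚ) * ∏ k, (F k).map (Int.castRingHom ℚ) := by
      rw [← mul_prod_erase univ _ (mem_univ k0), ← mul_prod_erase univ
        (fun k => (F k).map (Int.castRingHom ℚ)) (mem_univ k0)]
      have h2 : ∏ k ∈ univ.erase k0, (G k).map (Int.castRingHom ℚ) =
          ∏ k ∈ univ.erase k0, (F k).map (Int.castRingHom ℚ) := by
        refine prod_congr rfl fun k hk => ?_
        simp only [G, (mem_erase.1 hk).1, if_false]
      rw [h2, ← mul_assoc]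
      congr 1
      simp only [G, if_true, Polynomial.map_mul, map_C]
      simp
    rw [h1, hmq, C_mul, mul_assoc, ← hfF]
  refine ⟨K, inferInstance, inferInstance, G, (q.den : ℚ), hden, ⟨?_, ?_, ?_⟩, ?_, hprodG.symm⟩
  · intro k
    exact (hassG k).symm.irreducible (hirr k)
  · intro k
    rw [hdegG]
    exact hev _ (hirr k) (hdvd k)
  · intro k l hkl h
    apply hkl
    have h1 : Associated (k : ℚ[X]) (l : ℚ[X]) := (hassG k).symm.trans (h.trans (hassG l))
    apply Subtype.ext
    have h2 : normalize (k : ℚ[X]) = k :=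
      UniqueFactorizationMonoid.normalize_normalized_factor _ (Multiset.mem_toFinset.1 k.2)
    have h3 : normalize (l : ℚ[X]) = l :=
      UniqueFactorizationMonoid.normalize_normalized_factor _ (Multiset.mem_toFinset.1 l.2)
    rw [← h2, ← h3]
    exact normalize_eq_normalize_iff_associated.2 h1
  · have h1 := congrArg natDegree hprodG
    rw [natDegree_C_mul (pow_ne_zero _ hden), natDegree_prod _ _ (fun k _ => by
      rw [hr]
      exact mul_ne_zero (C_ne_zero.2 (hr0 k)) (hirr k).ne_zero)] at h1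
    have h2 : ∑ k, ((G k).map (Int.castRingHom ℚ)).natDegree = ∑ k, (G k).natDegree :=
      sum_congr rfl fun k _ =>
        natDegree_map_eq_of_injective (RingHom.injective_int (Int.castRingHom ℚ)) (G k)
    rw [← h2, h1]
    exact h4

end Pool.Agent.W262.S3
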