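import Mathlib
import Pool.Agent.W262.S3.RedL

/-! The analytic estimate for the twists with a section. -/

namespace Pool.Agent.W262.S3

open Finset Polynomial Pool.Agent.W262.RK Pool.Agent.W262.TW Pool.Agent.W623.SecE

theorem finl3 (K : Type) [Fintype K] [DecidableEq K] (f : K → ℤ[X]) (hf : AdmE f) (z0 : ℕ) :
    ∃ δ : ℝ, 0 < δ ∧ ∃ C : ℝ, ∀ X : ℕ, 3 ≤ X →
      ({d : ℤ | d.natAbs ≤ X ∧ Squarefree d ∧ SelL f z0 d}.ncard : ℝ) ≤
        C * X * (Real.log X) ^ (-δ) := by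
  obtain ⟨hirr, heven, hass⟩ := hf
  have hdeg : ∀ k, 2 ≤ (f k).natDegree := by
    intro k
    have e1 : ((f k).map (Int.castRingHom ℚ)).natDegree = (f k).natDegree :=
      natDegree_map_eq_of_injective (RingHom.injective_int (Int.castRingHom ℚ)) _
    have e2 : 0 < ((f k).map (Int.castRingHom ℚ)).natDegree := (hirr k).natDegree_pos
    obtain ⟨m, hm⟩ := heven k
    omega
  set z : ℕ := max z0 2 with hz
  choose η hη C1 hC1 using W338.TW.ant K f hirr hdeg
  obtain ⟨η0, hη0, hη1, hη2⟩ : ∃ η0 : ℝ, 0 < η0 ∧ η0 ≤ 1 ∧ ∀ i, η0 ≤ η i := by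
    rcases isEmpty_or_nonempty K with hK | hK
    · exact ⟨1, one_pos, le_rfl, fun i => (hK.false i).elim⟩
    · obtain ⟨i0, hi0⟩ := Finite.exists_min η
      exact ⟨min (η i0) 1, lt_min (hη i0) one_pos, min_le_right _ _,
        fun i => (min_le_left _ _).trans (hi0 i)⟩
  obtain ⟨C, hC⟩ := abs0_all K (η0 / 2) (by positivity)
  set C2 : ℝ := ∑ i, |C1 i| with hC2
  have hC20 : 0 ≤ C2 := sum_nonneg fun _ _ => abs_nonneg _
  refine ⟨η0 / 2, by positivity, (EE z).card * ((Fintype.piFinset (fun _ : K => EE z)).card *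
    (|C| * Real.exp C2)), fun X hX => ?_⟩
  have hlog := one_lt_log hX
  have hlog0 : 0 < Real.log X := by linarith
  have hll : 0 < Real.log (Real.log X) := Real.log_pos hlog
  set w : ℝ := (1 - η0) * Real.log (Real.log X) + C2 with hw
  have hw0 : 0 ≤ w := by
    have : 0 ≤ (1 - η0) * Real.log (Real.log X) := mul_nonneg (by linarith) hll.le
    linarith
  have hX0 : (0 : ℝ) < X := by exact_mod_cast (by omega : 0 < X)
  have hexp : Real.exp w = (Real.log X) ^ (1 - η0) * Real.exp C2 := by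
    rw [hw, Real.exp_add, Real.rpow_def_of_pos hlog0, mul_comm (1 - η0)]
  have hcnt : ∀ κ ∈ Fintype.piFinset (fun _ : K => EE z),
      (cnt z X 0 κ (Th f) : ℝ) ≤ |C| * Real.exp C2 * (X * (Real.log X) ^ (-(η0 / 2))) := by
    intro κ hκ
    rw [Fintype.mem_piFinset] at hκ
    have h := hC z X κ (Th f) w (le_max_right _ _) hX hw0 (fun k => EE_prime (hκ k))
      (Th_subset f) (fun i => by
        refine (hC1 i z X hX).trans ?_
        rw [hw]
        have e1 : C1 i ≤ C2 := (le_abs_self _).trans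
          (single_le_sum (f := fun i => |C1 i|) (fun _ _ => abs_nonneg _) (mem_univ i))
        have e2 : (1 - η i) * Real.log (Real.log X) ≤ (1 - η0) * Real.log (Real.log X) :=
          mul_le_mul_of_nonneg_right (by linarith [hη2 i]) hll.le
        linarith)
    refine h.trans ?_
    rw [hexp]
    have e3 : (Real.log X) ^ (η0 / 2 - 1) * (Real.log X) ^ (1 - η0) =
        (Real.log X) ^ (-(η0 / 2)) := by
      rw [← Real.rpow_add hlog0]
      congr 1
      ring
    calc C * X * (Real.log X) ^ (η0 / 2 - 1) * ((Real.log X) ^ (1 - η0) * Real.exp C2)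
        = C * (Real.exp C2 * (X * ((Real.log X) ^ (η0 / 2 - 1) * (Real.log X) ^ (1 - η0)))) := by
          ring
      _ ≤ |C| * (Real.exp C2 * (X * ((Real.log X) ^ (η0 / 2 - 1) * (Real.log X) ^ (1 - η0)))) := by
          apply mul_le_mul_of_nonneg_right (le_abs_self _)
          positivity
      _ = _ := by rw [e3]; ring
  have h := redl K f z0 z (le_max_left _ _) X
  calc ({d : ℤ | d.natAbs ≤ X ∧ Squarefree d ∧ SelL f z0 d}.ncard : ℝ)
      ≤ ((EE z).card * ∑ κ ∈ Fintype.piFinset (fun _ : K => EE z), cnt z X 0 κ (Th f) : ℕ) := by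
        exact_mod_cast h
    _ = (EE z).card * ∑ κ ∈ Fintype.piFinset (fun _ : K => EE z), (cnt z X 0 κ (Th f) : ℝ) := by
        push_cast; rfl
    _ ≤ (EE z).card * ∑ κ ∈ Fintype.piFinset (fun _ : K => EE z),
        (|C| * Real.exp C2 * (X * (Real.log X) ^ (-(η0 / 2)))) := by
        apply mul_le_mul_of_nonneg_left (sum_le_sum hcnt) (Nat.cast_nonneg _)
    _ = _ := by
        rw [sum_const, nsmul_eq_mul]
        ring



theorem finl : FINL := by
  intro K _ _ f hf z0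
  obtain ⟨δ, hδ, C, hC⟩ := finl3 K f hf z0
  refine ⟨δ, hδ, max C (5 / 2 * (Real.log 2) ^ δ), fun X hX => ?_⟩
  have hl2 : 0 < Real.log 2 := Real.log_pos (by norm_num)
  rcases Nat.lt_or_ge 2 X with h | h
  · refine (hC X h).trans ?_
    have h1 : (0 : ℝ) ≤ Real.log X := Real.log_natCast_nonneg X
    have h2 : (0 : ℝ) ≤ (Real.log X) ^ (-δ) := Real.rpow_nonneg h1 _
    exact mul_le_mul_of_nonneg_right
      (mul_le_mul_of_nonneg_right (le_max_left _ _) (Nat.cast_nonneg _)) h2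
  · obtain rfl : X = 2 := le_antisymm h hX
    have h3 : {d : ℤ | d.natAbs ≤ 2 ∧ Squarefree d ∧ SelL f z0 d}.ncard ≤ 5 := by
      have h4 : {d : ℤ | d.natAbs ≤ 2 ∧ Squarefree d ∧ SelL f z0 d} ⊆
          ((Finset.Icc (-2 : ℤ) 2 : Finset ℤ) : Set ℤ) := by
        intro d hd
        have h5 : d.natAbs ≤ 2 := hd.1
        rw [Finset.mem_coe, Finset.mem_Icc]
        omega
      refine (Set.ncard_le_ncard h4 (Finset.finite_toSet _)).trans ?_
      rw [Set.ncard_coe_finset]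
      rfl
    have h6 : ({d : ℤ | d.natAbs ≤ 2 ∧ Squarefree d ∧ SelL f z0 d}.ncard : ℝ) ≤ 5 := by
      exact_mod_cast h3
    refine h6.trans ?_
    have h7 : (0 : ℝ) ≤ ((2 : ℕ) : ℝ) * (Real.log ((2 : ℕ) : ℝ)) ^ (-δ) := by positivity
    have h8 : (5 : ℝ) = (5 / 2 * (Real.log 2) ^ δ) * (((2 : ℕ) : ℝ) *
        (Real.log ((2 : ℕ) : ℝ)) ^ (-δ)) := by
      have h9 : (Real.log 2) ^ δ * (Real.log 2) ^ (-δ) = 1 := by
        rw [← Real.rpow_add hl2]
        simp
      push_cast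
      linear_combination (-5 : ℝ) * h9
    calc (5 : ℝ) = (5 / 2 * (Real.log 2) ^ δ) * (((2 : ℕ) : ℝ) *
          (Real.log ((2 : ℕ) : ℝ)) ^ (-δ)) := h8
      _ ≤ (max C (5 / 2 * (Real.log 2) ^ δ)) * (((2 : ℕ) : ℝ) *
          (Real.log ((2 : ℕ) : ℝ)) ^ (-δ)) := mul_le_mul_of_nonneg_right (le_max_right _ _) h7
      _ = _ := by rw [mul_assoc]

end Pool.Agent.W262.S3
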