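import Mathlib
import Pool.Agent.W262.TW.Full
import Pool.Agent.W623.SecE.Stm

/-! The estimate `fin3_all` for `2 ≤ X`. -/

namespace Pool.Agent.W262.S3

open Finset Polynomial Pool.Agent.W262.TW Pool.Agent.W623.SecE

theorem finl_sel (K : Type) [Fintype K] [DecidableEq K] (f : K → ℤ[X]) (hf : AdmE f) :
    ∃ δ : ℝ, 0 < δ ∧ ∃ C : ℝ, ∀ X : ℕ, 2 ≤ X →
      ({d : ℤ | d.natAbs ≤ X ∧ Squarefree d ∧ Sel f d}.ncard : ℝ) ≤
        C * X * (Real.log X) ^ (-δ) := by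
  obtain ⟨δ, hδ, C, hC⟩ := fin3_all K f hf.1 hf.2.1 hf.2.2
  refine ⟨δ, hδ, max C (5 / 2 * (Real.log 2) ^ δ), fun X hX => ?_⟩
  have hl2 : 0 < Real.log 2 := Real.log_pos (by norm_num)
  rcases Nat.lt_or_ge 2 X with h | h
  · refine (hC X h).trans ?_
    have h1 : (0 : ℝ) ≤ Real.log X := Real.log_natCast_nonneg X
    have h2 : (0 : ℝ) ≤ (Real.log X) ^ (-δ) := Real.rpow_nonneg h1 _
    exact mul_le_mul_of_nonneg_right
      (mul_le_mul_of_nonneg_right (le_max_left _ _) (Nat.cast_nonneg _)) h2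
  · obtain rfl : X = 2 := le_antisymm h hX
    have h3 : {d : ℤ | d.natAbs ≤ 2 ∧ Squarefree d ∧ Sel f d}.ncard ≤ 5 := by
      have h4 : {d : ℤ | d.natAbs ≤ 2 ∧ Squarefree d ∧ Sel f d} ⊆
          ((Finset.Icc (-2 : ℤ) 2 : Finset ℤ) : Set ℤ) := by
        intro d hd
        have h5 : d.natAbs ≤ 2 := hd.1
        rw [Finset.mem_coe, Finset.mem_Icc]
        omega
      refine (Set.ncard_le_ncard h4 (Finset.finite_toSet _)).trans ?_
      rw [Set.ncard_coe_finset]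
      rfl
    have h6 : ({d : ℤ | d.natAbs ≤ 2 ∧ Squarefree d ∧ Sel f d}.ncard : ℝ) ≤ 5 := by
      exact_mod_cast h3
    refine h6.trans ?_
    have h7 : (0 : ℝ) ≤ ((2 : ℕ) : ℝ) * (Real.log ((2 : ℕ) : ℝ)) ^ (-δ) := by positivity
    have h8 : (5 : ℝ) = (5 / 2 * (Real.log 2) ^ δ) * (((2 : ℕ) : ℝ) *
        (Real.log ((2 : ℕ) : ℝ)) ^ (-δ)) := by
      have h9 : (Real.log 2) ^ δ * (Real.log 2) ^ (-δ) = 1 := by
        rw [← Real.rpow_add hl2]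
        simp
      push_cast
      linear_combination (-5 : ℝ) * h9
    calc (5 : ℝ) = (5 / 2 * (Real.log 2) ^ δ) * (((2 : ℕ) : ℝ) *
          (Real.log ((2 : ℕ) : ℝ)) ^ (-δ)) := h8
      _ ≤ (max C (5 / 2 * (Real.log 2) ^ δ)) * (((2 : ℕ) : ℝ) *
          (Real.log ((2 : ℕ) : ℝ)) ^ (-δ)) := mul_le_mul_of_nonneg_right (le_max_right _ _) h7
      _ = _ := by rw [mul_assoc]

end Pool.Agent.W262.S3
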