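import Mathlib
import Pool.Agent.W262.S3.Fact
import Pool.Agent.W262.S3.FinL
import Pool.Agent.W262.S3.FinSel
import Pool.Agent.W262.TW.Rat3
import Pool.Agent.W262.TW.Full

/-! From square classes to the final estimate. -/

namespace Pool.Agent.W262.S3

open Finset Polynomial Pool.Agent.W262.TW Pool.Agent.W623.SecE Pool.Agent.W620.SC

universe v w

lemma hom_one' (f : ℤ[X]) (x : ℚ) : hom f x 1 = (f.map (Int.castRingHom ℚ)).eval x := by
  unfold hom
  rw [eval_eq_sum_range, natDegree_map_eq_of_injective (RingHom.injective_int (Int.castRingHom ℚ))]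
  refine sum_congr rfl fun i _ => ?_
  rw [one_pow, mul_one, coeff_map]
  rfl

lemma hom_inf (f : ℤ[X]) : hom f (1 : ℚ) 0 = ((f.map (Int.castRingHom ℚ)).leadingCoeff) := by
  unfold hom
  rw [sum_eq_single f.natDegree]
  · rw [leadingCoeff, natDegree_map_eq_of_injective (RingHom.injective_int (Int.castRingHom ℚ)),
      coeff_map]
    simp
  · intro i hi hne
    have : f.natDegree - i ≠ 0 := by
      rw [mem_range] at hi
      omega
    rw [zero_pow this, mul_zero]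
  · intro h
    simp at h

/-- the twist has a point, a point at infinity or a section -/
def Bad (f : ℚ[X]) (d : ℤ) : Prop :=
  (∃ x y : ℚ, (d : ℚ) * y ^ 2 = f.eval x) ∨ (∃ r : ℚ, (d : ℚ) * r ^ 2 = f.leadingCoeff) ∨
  ∃ (F : Type v) (Ω : Type w) (_ : Field F) (_ : Field Ω) (_ : Algebra ℚ F)
    (_ : Algebra F Ω) (_ : Algebra ℚ Ω) (_ : IsScalarTower ℚ F Ω) (_ : IsAlgClosed Ω)
    (_ : Algebra.IsAlgebraic F Ω) (U : Set (ValuationSubring F)) (x y : F),
    (∀ O ∈ U, ∀ c : ℚ, algebraMap ℚ F c ∈ O) ∧ Nonempty (GSection ℚ F Ω U) ∧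
      algebraMap ℚ F (d : ℚ) * y ^ 2 = aeval x f

theorem final (hA : ARITH.{v, w}) (f : ℚ[X]) (hf : Squarefree f) (h4 : 4 ≤ f.natDegree)
    (hev : ∀ g : ℚ[X], Irreducible g → g ∣ f → Even g.natDegree) :
    ∃ δ : ℝ, 0 < δ ∧ ∃ C : ℝ, ∀ X : ℕ, 2 ≤ X →
      ({d : ℤ | d.natAbs ≤ X ∧ Squarefree d ∧ Bad.{v, w} f d}.ncard : ℝ) ≤
        C * X * (Real.log X) ^ (-δ) := by
  obtain ⟨K, _, _, G, b, hb, hG, hG4, hfG⟩ := exists_factors f hf h4 hev
  have hdeg : ∀ k, 2 ≤ (G k).natDegree := by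
    intro k
    have e1 : ((G k).map (Int.castRingHom ℚ)).natDegree = (G k).natDegree :=
      natDegree_map_eq_of_injective (RingHom.injective_int (Int.castRingHom ℚ)) _
    have e2 : 0 < ((G k).map (Int.castRingHom ℚ)).natDegree := (hG.1 k).natDegree_pos
    obtain ⟨m, hm⟩ := hG.2.1 k
    omega
  obtain ⟨z0, hz0⟩ := hA K G hG hG4
  obtain ⟨δ1, hδ1, C1, hC1⟩ := finl K G hG z0
  obtain ⟨δ2, hδ2, C2, hC2⟩ := finl_sel K G hG
  have key : ∀ d : ℤ, Squarefree d → Bad.{v, w} f d → SelL G z0 d ∨ Sel G d := by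
    intro d hd hbad
    rcases hbad with ⟨x, y, hxy⟩ | ⟨r, hr⟩ | ⟨F, Ω, _, _, _, _, _, _, _, _, U, x, y, hU, ⟨S⟩, hxy⟩
    · right
      refine sel_of_point G hG.1 hdeg ⟨x, 1, b * y, Or.inr one_ne_zero, ?_⟩
      have h1 := congrArg (fun P : ℚ[X] => P.eval x) hfG
      simp only [eval_mul, eval_C, eval_prod] at h1
      rw [prod_congr rfl fun k _ => hom_one' (G k) x, ← h1, ← hxy]
      ring
    · right
      refine sel_of_point G hG.1 hdeg ⟨1, 0, b * r, Or.inl one_ne_zero, ?_⟩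
      have h1 := congrArg leadingCoeff hfG
      rw [leadingCoeff_mul, leadingCoeff_C, leadingCoeff_prod] at h1
      rw [prod_congr rfl fun k _ => hom_inf (G k), ← h1, ← hr]
      ring
    · refine hz0 d hd F Ω U hU S x (algebraMap ℚ F b * y) ?_
      have h1 := congrArg (aeval x) hfG
      rw [map_mul, aeval_C, map_prod] at h1
      have h2 : ∀ k, aeval x ((G k).map (Int.castRingHom ℚ)) = aeval x (G k) := by
        intro k
        rw [aeval_def, aeval_def, eval₂_map]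
        congr 1
        exact RingHom.ext_int _ _
      rw [← prod_congr rfl fun k _ => h2 k, ← h1, ← hxy]
      have h3 : algebraMap ℚ F (d : ℚ) = (d : F) := by simp
      rw [h3, map_pow]
      ring
  refine ⟨min δ1 δ2, lt_min hδ1 hδ2, (|C1| * (Real.log 2) ^ (min δ1 δ2 - δ1) +
    |C2| * (Real.log 2) ^ (min δ1 δ2 - δ2)), fun X hX => ?_⟩
  have hfin : ∀ P : ℤ → Prop, {d : ℤ | d.natAbs ≤ X ∧ Squarefree d ∧ P d}.Finite := by
    intro P
    refine (Finset.finite_toSet (Finset.Icc (-(X : ℤ)) X)).subset ?_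
    rintro d ⟨hd1, -⟩
    rw [Finset.mem_coe, Finset.mem_Icc]
    omega
  have h1 : {d : ℤ | d.natAbs ≤ X ∧ Squarefree d ∧ Bad.{v, w} f d}.ncard ≤
      {d : ℤ | d.natAbs ≤ X ∧ Squarefree d ∧ SelL G z0 d}.ncard +
      {d : ℤ | d.natAbs ≤ X ∧ Squarefree d ∧ Sel G d}.ncard := by
    refine le_trans (Set.ncard_le_ncard ?_ ((hfin _).union (hfin _))) (Set.ncard_union_le _ _)
    rintro d ⟨hd1, hd2, hd3⟩
    rcases key d hd2 hd3 with h | h
    · exact Or.inl ⟨hd1, hd2, h⟩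
    · exact Or.inr ⟨hd1, hd2, h⟩
  have h1' : ({d : ℤ | d.natAbs ≤ X ∧ Squarefree d ∧ Bad.{v, w} f d}.ncard : ℝ) ≤
      {d : ℤ | d.natAbs ≤ X ∧ Squarefree d ∧ SelL G z0 d}.ncard +
      {d : ℤ | d.natAbs ≤ X ∧ Squarefree d ∧ Sel G d}.ncard := by exact_mod_cast h1
  have hl2 : 0 < Real.log 2 := Real.log_pos (by norm_num)
  have hlX : Real.log 2 ≤ Real.log X :=
    Real.log_le_log (by norm_num) (by exact_mod_cast hX)
  have hlX0 : 0 < Real.log X := hl2.trans_le hlX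
  have hX0 : (0 : ℝ) ≤ X := Nat.cast_nonneg _
  have hpow : ∀ δ' C' : ℝ, min δ1 δ2 ≤ δ' → C' * X * (Real.log X) ^ (-δ') ≤
      |C'| * (Real.log 2) ^ (min δ1 δ2 - δ') * X * (Real.log X) ^ (-(min δ1 δ2)) := by
    intro δ' C' hδ'
    have e1 : (Real.log X) ^ (-δ') = (Real.log X) ^ (min δ1 δ2 - δ') *
        (Real.log X) ^ (-(min δ1 δ2)) := by
      rw [← Real.rpow_add hlX0]
      congr 1
      ring
    have e2 : (Real.log X) ^ (min δ1 δ2 - δ') ≤ (Real.log 2) ^ (min δ1 δ2 - δ') :=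
      Real.rpow_le_rpow_of_nonpos hl2 hlX (by linarith)
    have e3 : 0 ≤ (Real.log X) ^ (-(min δ1 δ2)) := Real.rpow_nonneg hlX0.le _
    rw [e1]
    calc C' * X * ((Real.log X) ^ (min δ1 δ2 - δ') * (Real.log X) ^ (-(min δ1 δ2)))
        ≤ |C'| * X * ((Real.log X) ^ (min δ1 δ2 - δ') * (Real.log X) ^ (-(min δ1 δ2))) := by
          apply mul_le_mul_of_nonneg_right _ (by positivity)
          exact mul_le_mul_of_nonneg_right (le_abs_self _) hX0
      _ ≤ |C'| * X * ((Real.log 2) ^ (min δ1 δ2 - δ') * (Real.log X) ^ (-(min δ1 δ2))) := by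
          apply mul_le_mul_of_nonneg_left _ (by positivity)
          exact mul_le_mul_of_nonneg_right e2 e3
      _ = _ := by ring
  calc ({d : ℤ | d.natAbs ≤ X ∧ Squarefree d ∧ Bad.{v, w} f d}.ncard : ℝ)
      ≤ C1 * X * (Real.log X) ^ (-δ1) + C2 * X * (Real.log X) ^ (-δ2) :=
        h1'.trans (add_le_add (hC1 X hX) (hC2 X hX))
    _ ≤ _ := by
        refine (add_le_add (hpow δ1 C1 (min_le_left _ _)) (hpow δ2 C2 (min_le_right _ _))).trans
          (le_of_eq ?_)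
        ring

end Pool.Agent.W262.S3
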