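import Mathlib
import Pool.Agent.W623.SecE.Stm

/-!
# Sections of twists: arithmetic over `ℚ` (helper262, helper623), statements of the parts
-/

namespace Pool.Agent.W262.S3

open Pool.Agent.W620.SC Pool.Agent.W262.TW Pool.Agent.W623.SecE Polynomial

universe v w

/-- the localisation of `ℤ` at `p` -/
def ZLOC : Prop := ∀ p : ℕ, p.Prime → ∃ (A : Type) (_ : CommRing A) (_ : IsDomain A)
  (_ : IsDiscreteValuationRing A) (_ : Algebra A ℚ), Finite (IsLocalRing.ResidueField A) ∧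
  IsFractionRing A ℚ ∧ Irreducible (p : A) ∧
  (∀ n : ℤ, (n : A) ∈ IsLocalRing.maximalIdeal A ↔ (p : ℤ) ∣ n) ∧
  (∀ a : A, ∃ n : ℤ, a - n ∈ IsLocalRing.maximalIdeal A)

/-- separability over `ℚ` and modulo large primes -/
def SEPZ : Prop := ∀ (K : Type) [Fintype K] [DecidableEq K] (f : K → ℤ[X]), AdmE f →
  (∏ k, (f k).map (Int.castRingHom ℚ)).Separable ∧ ∃ z0 : ℕ, ∀ p : ℕ, p.Prime → z0 < p →
    (∀ k, ¬ (p : ℤ) ∣ (f k).leadingCoeff) ∧
    (∏ k, (f k).map (Int.castRingHom (ZMod p))).Separable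

/-- invariant square roots of rational numbers are rational -/
def SQG : Prop := ∀ (F : Type v) (Ω : Type w) [Field F] [Field Ω] [Algebra ℚ F]
  [Algebra F Ω] [Algebra ℚ Ω] [IsScalarTower ℚ F Ω] [IsAlgClosed Ω] [Algebra.IsAlgebraic F Ω]
  (U : Set (ValuationSubring F)) (G : GSection ℚ F Ω U) (z : unramified F Ω U) (N : ℚ),
  (∀ σ, G.toHom σ z = z) → (z : Ω) ^ 2 = algebraMap ℚ Ω N → IsSquare N

end Pool.Agent.W262.S3
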