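import Mathlib
import Pool.Agent.W405.S3.Arith
import Pool.Agent.W240.S3.ZLoc
import Pool.Agent.W762.S3.Sepz
import Pool.Agent.W32.S3.Sqg
import Pool.Agent.W262.S3.Final

/-! The arithmetic input of the theorem on sections, from the three statements on sections. -/

namespace Pool.Agent.W262.S3

open Pool.Agent.W623.SecE

universe v w

theorem arith3 (h1 : SECGLOB.{0, v, w}) (h2 : SECPT.{0, v, w}) (h3 : SECLOC.{0, v, w}) :
    ARITH.{v, w} :=
  Pool.Agent.W405.S3.arith.{v, w} h1 h2 h3 Pool.Agent.W240.S3.zloc Pool.Agent.W762.S3.sepz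
    Pool.Agent.W32.S3.sqg.{v, w}

end Pool.Agent.W262.S3
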