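import Mathlib
import Pool.Agent.W262.S3.Final

/-!
# The section conjecture for 100% of the quadratic twists, everywhere locally soluble twists included

Let `f ∈ ℚ[x]` be squarefree of degree at least 4, with all irreducible factors of even degree.
Then for all squarefree `d`, `|d| ≤ X`, with at most `C X (log X)^(-δ)` exceptions, and all even
`n ≥ 2` the curve `d yⁿ = f(x)` has no rational point and its fundamental group has no section, also
when any set of closed points of the curve is removed.
-/

open Polynomial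

namespace Pool.Agent.W262.S3.Res

universe u v w

section definitions

variable (k : Type u) (F : Type v) (Ω : Type w) [Field k] [Field F] [Field Ω] [Algebra k F]
  [Algebra F Ω] [Algebra k Ω]

/-- The inertia group of the valuation ring `W` of `Ω`, as a subgroup of `Gal(Ω/F)`: the
automorphisms of `Ω` over `F` that map `W` onto itself and act as the identity on its residue
field. -/
noncomputable def inertia (W : ValuationSubring Ω) : Subgroup (Ω ≃ₐ[F] Ω) :=
  (W.inertiaSubgroup F).map (W.decompositionSubgroup F).subtype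

/-- `F_U`, for a set `U` of valuation rings of `F`: the elements of `Ω` fixed by the inertia groups
of all valuation rings `W` of `Ω` with `W ∩ F ∈ U`.  If `Ω` is an algebraic closure of a field `F`
of characteristic zero, this is the maximal extension of `F` in `Ω` unramified over `U`. -/
noncomputable def unramified (U : Set (ValuationSubring F)) : IntermediateField F Ω :=
  ⨅ W : {W : ValuationSubring Ω // W.comap (algebraMap F Ω) ∈ U},
    IntermediateField.fixedField (inertia F Ω W.1)

/-- The map `τ : M → M` acts as `σ : K → K` on the elements that the fields `K` and `M` have in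
common when they are regarded as subfields of `Ω` through `i` and `j`. -/
def ActsAs {K M Ω : Type*} [Field K] [Field M] [Field Ω] (i : K →+* Ω) (j : M →+* Ω) (σ : K → K)
    (τ : M → M) : Prop :=
  ∀ c z, j z = i c → j (τ z) = i (σ c)

/-- Let `k ⊆ K ⊆ Ω` and `F ⊆ M ⊆ Ω` be fields.  A splitting of `Gal(M/F) → Gal(K/k)`: a continuous
homomorphism `s` from `Gal(K/k)` to `Gal(M/F)` such that `s(σ)` acts as `σ` on the elements of
`K ∩ M`. -/
structure Splitting (K M : Type*) [Field K] [Field M] [Algebra k K] [Algebra F M] [Algebra K Ω]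
    [Algebra M Ω] where
  /-- the homomorphism `Gal(K/k) → Gal(M/F)` -/
  toHom : (K ≃ₐ[k] K) →* (M ≃ₐ[F] M)
  cont : Continuous toHom
  compat : ∀ σ : K ≃ₐ[k] K, ActsAs (algebraMap K Ω) (algebraMap M Ω) σ (toHom σ)

/-- The sections of `π₁(U) = Gal(F_U/F) → G_k`: the continuous homomorphisms `s` from
`G_k = Gal(k̄/k)` to `Gal(F_U/F)`, where `k̄` is the algebraic closure of `k` in `Ω`, such that
`s(σ)` acts as `σ` on the elements of `k̄`. -/
def GaloisSection (U : Set (ValuationSubring F)) : Type w :=
  Splitting k F Ω (algebraicClosure k Ω) (unramified F Ω U)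

end definitions

/-- The smooth projective curve `a yⁿ = f(x)`, where `n` divides the degree of `f`, has no point
over `k`: neither in the affine part nor at infinity. -/
def NoPoint {k : Type u} [Field k] (n : ℕ) (a : k) (f : k[X]) : Prop :=
  (¬ ∃ x y : k, a * y ^ n = f.eval x) ∧ ¬ ∃ r : k, a * r ^ n = f.leadingCoeff

/-- Let `F` be any field over `k` that contains a point `(x, y)` of the curve `a yⁿ = f(x)`, for
instance the function field of the curve, and let `Ω` be an algebraic closure of `F`.  Then for
every set `U` of valuation rings of `F` over `k` there is no section of `π₁(U) → G_k`.  If `F` is the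
function field of the curve, such `U` are given by the smooth projective curve and by all its open
subcurves. -/
def NoSection {k : Type u} [Field k] (n : ℕ) (a : k) (f : k[X]) : Prop :=
  ∀ (F : Type v) (Ω : Type w) [Field F] [Field Ω] [Algebra k F] [Algebra F Ω] [Algebra k Ω]
    [IsScalarTower k F Ω] [IsAlgClosure F Ω] (x y : F) (U : Set (ValuationSubring F)),
    algebraMap k F a * y ^ n = aeval x f → (∀ O ∈ U, ∀ c : k, algebraMap k F c ∈ O) →
      IsEmpty (GaloisSection k F Ω U)

/-- For some even `n ≥ 2` the curve `d yⁿ = f(x)` has a rational point or a section. -/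
def Exceptional (f : ℚ[X]) (d : ℤ) : Prop :=
  ∃ n : ℕ, 0 < n ∧ Even n ∧ ¬ (NoPoint n (d : ℚ) f ∧ NoSection.{0, v, w} n (d : ℚ) f)

lemma noSection_of {k : Type u} [Field k] {n m : ℕ} {a : k} {f : k[X]} (hn : n = m + m)
    (h : ∀ (F : Type v) (Ω : Type w) [Field F] [Field Ω] [Algebra k F] [Algebra F Ω] [Algebra k Ω]
      [IsScalarTower k F Ω] [IsAlgClosed Ω] [Algebra.IsAlgebraic F Ω]
      (U : Set (ValuationSubring F)) (x y : F), (∀ O ∈ U, ∀ c : k, algebraMap k F c ∈ O) →
      Nonempty (Pool.Agent.W620.SC.GSection k F Ω U) → algebraMap k F a * y ^ 2 ≠ aeval x f) :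
    NoSection.{u, v, w} n a f := by
  intro F Ω _ _ _ _ _ _ _ x y U hxy hU
  have hcl : IsAlgClosed Ω := IsAlgClosure.isAlgClosed F
  have halg : Algebra.IsAlgebraic F Ω := IsAlgClosure.isAlgebraic
  refine ⟨fun s => ?_⟩
  refine h F Ω U x (y ^ m) hU ⟨⟨s.toHom, s.cont, s.compat⟩⟩ ?_
  rw [← hxy, ← pow_mul, mul_two, hn]

/-- Let `f ∈ ℚ[x]` be squarefree of degree at least 4 with all irreducible factors of even degree.
Then for all squarefree `d`, `|d| ≤ X`, with at most `C X (log X)^(-δ)` exceptions, and all even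
`n ≥ 2`, the curve `d yⁿ = f(x)` has no rational point, and the fundamental groups of its open
subcurves and of all smooth curves over `ℚ` that dominate it have no sections. -/
theorem result_of (hA : Pool.Agent.W623.SecE.ARITH.{v, w}) (f : ℚ[X]) (hf : Squarefree f)
    (h4 : 4 ≤ f.natDegree) (hev : ∀ g : ℚ[X], Irreducible g → g ∣ f → Even g.natDegree) :
    ∃ δ : ℝ, 0 < δ ∧ ∃ C : ℝ, ∀ X : ℕ, 2 ≤ X →
      ({d : ℤ | d.natAbs ≤ X ∧ Squarefree d ∧ Exceptional.{v, w} f d}.ncard : ℝ) ≤
        C * X * (Real.log X) ^ (-δ) := by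
  obtain ⟨δ, hδ, C, hC⟩ := Pool.Agent.W262.S3.final.{v, w} hA f hf h4 hev
  refine ⟨δ, hδ, C, fun X hX => le_trans ?_ (hC X hX)⟩
  have hsub : {d : ℤ | d.natAbs ≤ X ∧ Squarefree d ∧ Exceptional.{v, w} f d} ⊆
      {d : ℤ | d.natAbs ≤ X ∧ Squarefree d ∧ Pool.Agent.W262.S3.Bad.{v, w} f d} := by
    rintro d ⟨hd1, hd2, n, hn, ⟨m, rfl⟩, hne⟩
    refine ⟨hd1, hd2, ?_⟩
    by_contra hbad
    apply hne
    unfold Pool.Agent.W262.S3.Bad at hbad
    push Not at hbad
    obtain ⟨h1, h2, h3⟩ := hbad
    refine ⟨⟨?_, ?_⟩, ?_⟩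
    · rintro ⟨x, y, hxy⟩
      apply h1 x (y ^ m)
      rw [← hxy, ← pow_mul, mul_two]
    · rintro ⟨r, hr⟩
      apply h2 (r ^ m)
      rw [← hr, ← pow_mul, mul_two]
    · refine noSection_of rfl ?_
      intro F Ω _ _ _ _ _ _ hcl halg U x y hU hG
      exact h3 F Ω inferInstance inferInstance inferInstance inferInstance inferInstance
        inferInstance hcl halg U x y hU hG
  have hfin : {d : ℤ | d.natAbs ≤ X ∧ Squarefree d ∧ Pool.Agent.W262.S3.Bad.{v, w} f d}.Finite := by
    refine (Finset.finite_toSet (Finset.Icc (-(X : ℤ)) X)).subset ?_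
    rintro d ⟨hd1, -⟩
    rw [Finset.mem_coe, Finset.mem_Icc]
    omega
  exact_mod_cast Set.ncard_le_ncard hsub hfin

end Pool.Agent.W262.S3.Res
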